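import Mathlib
import Pool.Agent.Run7.h816.SF.Fin

/-!
# Families of Salem numbers with least elements: few Frobenius or inertia automorphisms

Fix `ε > 0` and `D`. The family `family ε D` contains the Salem numbers `τ`, of degree `n` over `ℚ`, which
satisfy one of the following conditions.

* `FewFrobenius`: `τ` has degree at most `D` over some number field `E`, Galois over `ℚ`, such that
  `p ^ (a + 1) e k ≤ n ^ (1 - ε)` for some prime number `p` with ramification indices at most `e` in `E`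
  and some `a ≥ 1`, where `k` is the number of the automorphisms of `E` which are congruent to
  `x ↦ x ^ (p ^ a)` modulo some prime ideal above `p`.
* `FewInertia`: some automorphism `σ ≠ 1` of the Galois closure `L` of `ℚ(τ + τ⁻¹)` acts trivially modulo
  `P ^ s`, for some `s ≥ 1` and some prime ideal `P` above a prime number `p` with ramification indices at
  most `e` in `L`, and the number `k` of the conjugates of `σ` satisfies `k ≤ n ^ (1 - ε)` and
  `e k ≤ s n ^ (1 - ε)`. Here `p` may be arbitrarily large.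

Only finitely many members of the family lie below any given bound. So the family has a least element
unless it is empty, and if the set of all Salem numbers has no least element, then all sufficiently
small Salem numbers are outside of the family. More precisely `log τ ≥ c n / w` with an absolute
constant `c > 0`, where

  `w = p ^ (a + 1) D ^ 9 e k exp (18 √(log (2 e k) log (2 D)))` in the first case and
  `w = W exp (3 √(log (2 W)))`, for any `W ≥ k, e k / s`, in the second case.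
-/

set_option autoImplicit false

open Polynomial NumberField

namespace Pool.Agent.Results.MP_9599cf_nt.FewAutomorphisms

/-- `τ` is a Salem number: a real algebraic integer `τ > 1` all of whose conjugates `z ≠ τ` satisfy
`|z| ≤ 1`, with `|z| = 1` for at least one conjugate -/
def IsSalem (τ : ℝ) : Prop :=
  1 < τ ∧ IsIntegral ℤ τ ∧
    (∀ z : ℂ, aeval z (minpoly ℤ τ) = 0 → z ≠ (τ : ℂ) → ‖z‖ ≤ 1) ∧
    ∃ z : ℂ, aeval z (minpoly ℤ τ) = 0 ∧ ‖z‖ = 1

/-- the degree of `τ` over `ℚ` -/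
noncomputable def deg (τ : ℝ) : ℕ := (minpoly ℤ τ).natDegree

/-- the automorphisms of the number field `E` which are congruent to the map `x ↦ x ^ (p ^ a)` modulo
some prime ideal above `p` -/
def frobenii (E : Type) [Field E] [NumberField E] (p a : ℕ) : Set (E ≃ₐ[ℚ] E) :=
  {σ | ∃ 𝔓 : Ideal (𝓞 E), 𝔓.IsPrime ∧ (p : 𝓞 E) ∈ 𝔓 ∧ ∀ x : 𝓞 E, σ • x - x ^ (p ^ a) ∈ 𝔓}

/-- all ramification indices of prime ideals of `E` above `p` are at most `e` -/
def RamificationLE (E : Type) [Field E] [NumberField E] (p e : ℕ) : Prop :=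
  ∀ 𝔓 : Ideal (𝓞 E), 𝔓.IsPrime → (p : 𝓞 E) ∈ 𝔓 → (p : 𝓞 E) ∉ 𝔓 ^ (e + 1)

/-- The minimal polynomial of `τ` has a factor of degree at least one and at most `D` over `E`. (For a
Galois extension `E` of `ℚ` this means that `τ` has degree at most `D` over the image of `E` in `ℂ`.) -/
def DegreeLE (E : Type) [Field E] [NumberField E] (τ : ℝ) (D : ℕ) : Prop :=
  ∃ P : E[X], P ∣ (minpoly ℤ τ).map (algebraMap ℤ E) ∧ 1 ≤ P.natDegree ∧ P.natDegree ≤ D

/-- `p ^ (a + 1) e k`, where `k` is the number of the automorphisms in `frobenii E p a` -/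
noncomputable def cost (E : Type) [Field E] [NumberField E] (p a e : ℕ) : ℕ :=
  p ^ (a + 1) * (e * (frobenii E p a).ncard)

/-- the number `p ^ (a + 1) D ^ 9 e k exp (18 √(log (2 e k) log (2 D)))` -/
noncomputable def weight (E : Type) [Field E] [NumberField E] (p a e D : ℕ) : ℝ :=
  cost E p a e * (D : ℝ) ^ 9 *
    Real.exp (18 * Real.sqrt (Real.log (2 * (e * (frobenii E p a).ncard)) * Real.log (2 * D)))

/-- the Galois closure of the trace field `ℚ(τ + τ⁻¹)` -/
abbrev L (τ : ℝ) : Type := ((minpoly ℤ (τ + τ⁻¹)).map (Int.castRingHom ℚ)).SplittingField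

instance (τ : ℝ) : NumberField (L τ) := Pool.Agent.Run7.h22.numberField_splitting _

/-- the automorphism `σ` of `L τ` acts trivially modulo `P ^ s`, for some prime ideal `P` above `p` -/
def IsInertia (τ : ℝ) (p s : ℕ) (σ : L τ ≃ₐ[ℚ] L τ) : Prop :=
  ∃ P : Ideal (𝓞 (L τ)), P.IsPrime ∧ (p : 𝓞 (L τ)) ∈ P ∧ ∀ x : 𝓞 (L τ), σ • x - x ∈ P ^ s

/-- the number of the conjugates of `σ` in the Galois group of `L τ` -/
noncomputable def conjugates (τ : ℝ) (σ : L τ ≃ₐ[ℚ] L τ) : ℕ :=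
  {ρ : L τ ≃ₐ[ℚ] L τ | ∃ g : L τ ≃ₐ[ℚ] L τ, ρ = g * σ * g⁻¹}.ncard

/-- `p` is a prime number with ramification indices at most `e` in `L τ`, `s ≥ 1`, and there is an
automorphism `σ ≠ 1` of `L τ` which acts trivially modulo `P ^ s` for a prime ideal `P` above `p`, such
that its number `k` of conjugates satisfies `k ≤ W` and `e k ≤ s W` -/
def InertiaData (τ : ℝ) (p s e W : ℕ) : Prop :=
  p.Prime ∧ 1 ≤ s ∧ RamificationLE (L τ) p e ∧ ∃ σ : L τ ≃ₐ[ℚ] L τ, σ ≠ 1 ∧ IsInertia τ p s σ ∧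
    conjugates τ σ ≤ W ∧ e * conjugates τ σ ≤ s * W

/-- the first condition -/
def FewFrobenius (ε : ℝ) (D : ℕ) (τ : ℝ) : Prop :=
  ∃ (E : Type) (_ : Field E) (_ : NumberField E) (_ : IsGalois ℚ E) (p a e : ℕ),
    DegreeLE E τ D ∧ p.Prime ∧ 1 ≤ a ∧ 1 ≤ e ∧ RamificationLE E p e ∧
    (cost E p a e : ℝ) ≤ (deg τ : ℝ) ^ (1 - ε)

/-- the second condition -/
def FewInertia (ε : ℝ) (τ : ℝ) : Prop :=
  ∃ p s e W : ℕ, InertiaData τ p s e W ∧ (W : ℝ) ≤ (deg τ : ℝ) ^ (1 - ε)

/-- the Salem numbers with one of the two conditions -/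
def family (ε : ℝ) (D : ℕ) : Set ℝ := {τ | IsSalem τ ∧ (FewFrobenius ε D τ ∨ FewInertia ε τ)}

/-- the bound of the helper file in terms of the weight -/
lemma fac_eq (C : ℝ) (E : Type) [Field E] [NumberField E] (p a e D : ℕ) :
    C * (p : ℝ) ^ (a + 1) * Pool.Agent.Run7.h816.MG.fac D
      (e * (Pool.Agent.Run7.h22.frobSet E p (p ^ a)).ncard) = C * weight E p a e D := by
  have h1 : Pool.Agent.Run7.h22.frobSet E p (p ^ a) = frobenii E p a := rfl
  rw [h1]
  unfold Pool.Agent.Run7.h816.MG.fac weight cost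
  push_cast
  ring

/-- the first inequality -/
lemma main1 : ∃ C : ℝ, 0 < C ∧ ∀ (E : Type) [Field E] [NumberField E] [IsGalois ℚ E]
    (p a e D : ℕ), p.Prime → 1 ≤ a → 1 ≤ e → RamificationLE E p e →
    ∀ τ : ℝ, IsSalem τ → DegreeLE E τ D → (deg τ : ℝ) ≤ C * (weight E p a e D * Real.log τ) := by
  obtain ⟨C, hC, h⟩ := Pool.Agent.Run7.h816.MG.salem_rel
  refine ⟨C, hC, ?_⟩
  rintro E _ _ _ p a e D hp ha he hram τ ⟨h1, h2, h4, h3⟩ ⟨P, hP, hP1, hPD⟩
  have h5 := h E p a hp ha e he hram τ h1 h2 (Pool.Agent.Run7.h816.SF.inv_root h1 h2 h3) h4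
    P hP hP1 D hPD
  rw [fac_eq] at h5
  refine h5.trans (le_of_eq ?_)
  ring

/-- the second inequality -/
lemma main2 : ∃ C : ℝ, 0 < C ∧ ∀ (p s e W : ℕ) (τ : ℝ), IsSalem τ → InertiaData τ p s e W →
    (deg τ : ℝ) ≤ C * ((W * 1 * Real.exp (3 * Real.sqrt (Real.log (2 * W)))) * Real.log τ) := by
  obtain ⟨C, hC, h⟩ := Pool.Agent.Run7.h22.salem_main_in
  refine ⟨C, hC, ?_⟩
  rintro p s e w τ ⟨h1, h2, h4, h3⟩ ⟨hp, hs, hram, σ, hσ1, ⟨P, hP1, hP2, hP3⟩, hk1, hk2⟩
  have : IsGalois ℚ (L τ) := Pool.Agent.Run7.h22.isGalois_splitting _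
  have hspl : ((minpoly ℤ (τ + τ⁻¹)).map (Int.castRingHom ℚ)).IsSplittingField ℚ (L τ) := by
    convert Polynomial.IsSplittingField.splittingField
      ((minpoly ℤ (τ + τ⁻¹)).map (Int.castRingHom ℚ))
    exact Subsingleton.elim _ _
  have h5 := h τ h1 h2 (Pool.Agent.Run7.h816.SF.inv_root h1 h2 h3) h4 p s e w hp hs (L τ) hspl
    hram σ P hσ1 ⟨hP1, hP2, fun x => by rw [pow_one]; exact hP3 x⟩ hk1 hk2
  refine h5.trans (le_of_eq ?_)
  ring

/-- finitely many members below any bound -/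
lemma finite_family (ε B : ℝ) (D : ℕ) (hε : 0 < ε) : {τ | τ ∈ family ε D ∧ τ ≤ B}.Finite := by
  obtain ⟨C1, hC1, hm1⟩ := main1
  obtain ⟨C2, hC2, hm2⟩ := main2
  obtain ⟨A1, hA1, hexp1⟩ := Pool.Agent.Run7.h816.SF.exp_factor ε hε D
  obtain ⟨A2, hA2, hexp2⟩ := Pool.Agent.Run7.h816.SF.exp_factor3 ε hε
  set X1 : ℝ := (C1 * ((D : ℝ) ^ 9 * A1 * |Real.log B|)) ^ (2 / ε) with hX1
  set X2 : ℝ := (C2 * (1 * A2 * |Real.log B|)) ^ (2 / ε) with hX2
  refine (Pool.Agent.Run7.h816.SF.fin_of_deg B (max X1 X2)).subset ?_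
  rintro τ ⟨⟨hτ, hor⟩, hτB⟩
  have hτ' := hτ
  obtain ⟨h1, h2, h4, h3⟩ := hτ'
  refine ⟨h1, h2, h4, hτB, ?_⟩
  have hn1 : (1 : ℝ) ≤ (deg τ : ℝ) := by
    have : 0 < (minpoly ℤ τ).natDegree := minpoly.natDegree_pos h2
    unfold deg
    exact_mod_cast this
  have hn0 : (0 : ℝ) < (deg τ : ℝ) := by linarith
  have hpow : (deg τ : ℝ) ^ (1 - ε) ≤ deg τ := by
    calc (deg τ : ℝ) ^ (1 - ε) ≤ (deg τ : ℝ) ^ (1 : ℝ) :=
          Real.rpow_le_rpow_of_exponent_le hn1 (by linarith)
      _ = deg τ := Real.rpow_one _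
  rcases hor with ⟨E, _, _, _, p, a, e, hD, hp, ha, he, hram, hcost⟩ | ⟨p, s, e, W, hd, hW⟩
  · have h5 := hm1 E p a e D hp ha he hram τ hτ hD
    rcases Nat.eq_zero_or_pos (e * (frobenii E p a).ncard) with h0 | h0
    · have h6 : weight E p a e D = 0 := by
        unfold weight cost
        rw [h0, mul_zero, Nat.cast_zero, zero_mul, zero_mul]
      rw [h6, zero_mul, mul_zero] at h5
      linarith
    · have hx1 : (1 : ℝ) ≤ (e : ℝ) * (frobenii E p a).ncard := by exact_mod_cast h0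
      have hxn : (e : ℝ) * (frobenii E p a).ncard ≤ deg τ := by
        have hpR : (1 : ℝ) ≤ (p : ℝ) ^ (a + 1) := one_le_pow₀ (by exact_mod_cast hp.one_lt.le)
        calc (e : ℝ) * (frobenii E p a).ncard
            ≤ (p : ℝ) ^ (a + 1) * (e * (frobenii E p a).ncard) :=
              le_mul_of_one_le_left (by linarith) hpR
          _ = (cost E p a e : ℝ) := by
              unfold cost
              push_cast
              ring
          _ ≤ (deg τ : ℝ) ^ (1 - ε) := hcost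
          _ ≤ deg τ := hpow
      refine le_max_of_le_left ?_
      exact Pool.Agent.Run7.h816.SF.deg_of_weight hC1 hε hA1 (by positivity) hn1 h1 hτB hcost
        (Nat.cast_nonneg _) (hexp1 _ _ hx1 hxn) (Real.exp_pos _).le rfl h5
  · have h5 := hm2 p s e W τ hτ hd
    rcases Nat.eq_zero_or_pos W with h0 | h0
    · rw [h0, Nat.cast_zero, zero_mul, zero_mul, zero_mul, mul_zero] at h5
      linarith
    · have hx1 : (1 : ℝ) ≤ (W : ℝ) := by exact_mod_cast h0
      refine le_max_of_le_right ?_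
      exact Pool.Agent.Run7.h816.SF.deg_of_weight hC2 hε hA2 zero_le_one hn1 h1 hτB hW
        (Nat.cast_nonneg _) (hexp2 _ _ hx1 (hW.trans hpow)) (Real.exp_pos _).le rfl h5

/-- **Main result.** (1), (2): explicit lower bounds for the Salem numbers of the two kinds, with an
absolute constant. (3) Only finitely many members of `family ε D` lie below any bound. (4) The family has
a least element unless it is empty. (5) If every Salem number is larger than another one, then below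
any Salem number `τ₁` there is a Salem number `τ₀ ≤ τ₁` which is smaller than all members of the family. -/
theorem result :
    (∃ c : ℝ, 0 < c ∧
      (∀ (E : Type) [Field E] [NumberField E] [IsGalois ℚ E] (p a e D : ℕ),
        p.Prime → 1 ≤ a → 1 ≤ e → RamificationLE E p e →
        ∀ τ : ℝ, IsSalem τ → DegreeLE E τ D → c * deg τ ≤ weight E p a e D * Real.log τ) ∧
      (∀ (p s e W : ℕ) (τ : ℝ), IsSalem τ → InertiaData τ p s e W →
        c * deg τ ≤ (W * Real.exp (3 * Real.sqrt (Real.log (2 * W)))) * Real.log τ)) ∧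
    (∀ (ε : ℝ) (D : ℕ), 0 < ε →
      (∀ B : ℝ, {τ | τ ∈ family ε D ∧ τ ≤ B}.Finite) ∧
      ((family ε D).Nonempty → ∃ τ ∈ family ε D, ∀ τ' ∈ family ε D, τ ≤ τ') ∧
      ((∀ τ : ℝ, IsSalem τ → ∃ τ' : ℝ, IsSalem τ' ∧ τ' < τ) →
        ∀ τ₁ : ℝ, IsSalem τ₁ → ∃ τ₀ : ℝ, IsSalem τ₀ ∧ τ₀ ≤ τ₁ ∧ ∀ τ ∈ family ε D, τ₀ < τ)) := by
  refine ⟨?_, ?_⟩
  · obtain ⟨C1, hC1, hm1⟩ := main1
    obtain ⟨C2, hC2, hm2⟩ := main2
    refine ⟨1 / (C1 + C2), by positivity, ?_, ?_⟩
    · intro E _ _ _ p a e D hp ha he hram τ hτ hD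
      have h5 := hm1 E p a e D hp ha he hram τ hτ hD
      have h6 : 0 ≤ weight E p a e D * Real.log τ :=
        mul_nonneg (by unfold weight; positivity) (Real.log_pos hτ.1).le
      rw [one_div_mul_eq_div, div_le_iff₀ (by positivity)]
      nlinarith
    · intro p s e W τ hτ hd
      have h5 := hm2 p s e W τ hτ hd
      rw [mul_one] at h5
      have h6 : 0 ≤ (W * Real.exp (3 * Real.sqrt (Real.log (2 * W)))) * Real.log τ :=
        mul_nonneg (by positivity) (Real.log_pos hτ.1).le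
      rw [one_div_mul_eq_div, div_le_iff₀ (by positivity)]
      nlinarith
  · intro ε D hε
    have least : ∀ x ∈ family ε D, ∃ τ ∈ family ε D, τ ≤ x ∧ ∀ τ' ∈ family ε D, τ ≤ τ' := by
      intro x hx
      obtain ⟨τ, ⟨h1, h2⟩, h3⟩ := Set.exists_min_image {τ | τ ∈ family ε D ∧ τ ≤ x} id
        (finite_family ε x D hε) ⟨x, hx, le_rfl⟩
      refine ⟨τ, h1, h2, fun τ' hτ' => ?_⟩
      rcases le_or_gt τ' x with h4 | h4
      · exact h3 τ' ⟨hτ', h4⟩
      · exact h2.trans h4.le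
    refine ⟨fun B => finite_family ε B D hε, ?_, ?_⟩
    · rintro ⟨x, hx⟩
      obtain ⟨τ, h1, -, h2⟩ := least x hx
      exact ⟨τ, h1, h2⟩
    · intro hno τ₁ hτ₁
      rcases Set.eq_empty_or_nonempty (family ε D) with h0 | ⟨x, hx⟩
      · refine ⟨τ₁, hτ₁, le_rfl, fun τ hτ => ?_⟩
        rw [h0] at hτ
        exact absurd hτ (Set.notMem_empty τ)
      · obtain ⟨m, hm, -, hmin⟩ := least x hx
        rcases lt_or_ge τ₁ m with h1 | h1
        · exact ⟨τ₁, hτ₁, le_rfl, fun τ hτ => h1.trans_le (hmin τ hτ)⟩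
        · obtain ⟨τ₀, h2, h3⟩ := hno m hm.1
          exact ⟨τ₀, h2, h3.le.trans h1, fun τ hτ => h3.trans_le (hmin τ hτ)⟩

end Pool.Agent.Results.MP_9599cf_nt.FewAutomorphisms
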